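import Mathlib
import Pool.Agent.N295.SR.Stm2

/-!
# Sturm's upper bound on the line from its parts (helper457, for helper295)
-/

set_option autoImplicit false

open MeasureTheory Set Real Filter Topology

namespace Pool.Agent.N457.SR

open Pool.Agent.N273.LT (Alt)
open Pool.Agent.N295.SR

theorem alt_of_mul {u : ℝ → ℝ} {c : ℝ} {I : Set ℝ} {n : ℕ} (h : Alt (fun x => c * u x) I n) :
    Alt u I n := by
  obtain ⟨t, h1, h2, h3⟩ := h
  refine ⟨t, h1, h2, fun i hi => ?_⟩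
  have h4 := h3 i hi
  have e : c * u (t i) * (c * u (t (i + 1))) = (c * c) * (u (t i) * u (t (i + 1))) := by ring
  simp only [e] at h4
  by_contra hcon
  push Not at hcon
  nlinarith [mul_self_nonneg c, mul_nonneg (mul_self_nonneg c) hcon]

/-- A continuous function without zeros on an order connected set has constant sign. -/
theorem const_sign {u : ℝ → ℝ} (hu : Continuous u) {I : Set ℝ} (hI : I.OrdConnected)
    (h0 : ∀ x ∈ I, u x ≠ 0) : ∀ x ∈ I, ∀ y ∈ I, 0 < u x * u y := by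
  have key : ∀ x ∈ I, ∀ y ∈ I, x ≤ y → 0 < u x * u y := by
    intro x hx y hy hxy
    by_contra hcon
    push Not at hcon
    have h1 : u x * u y < 0 := lt_of_le_of_ne hcon (mul_ne_zero (h0 x hx) (h0 y hy))
    have h2 : (0 : ℝ) ∈ u '' Icc x y := by
      rcases lt_or_ge (u x) 0 with h | h
      · have h3 : 0 < u y := by
          by_contra h4
          push Not at h4
          nlinarith
        exact intermediate_value_Icc hxy hu.continuousOn ⟨h.le, h3.le⟩
      · have h3 : u y < 0 := by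
          by_contra h4
          push Not at h4
          nlinarith
        exact intermediate_value_Icc' hxy hu.continuousOn ⟨h3.le, h⟩
    obtain ⟨z, hz, hz0⟩ := h2
    exact h0 z (hI.out hx hy hz) hz0
  intro x hx y hy
  rcases le_total x y with h | h
  · exact key x hx y hy h
  · rw [mul_comm]
    exact key y hy x hx h

/-- the potential tends to zero -/
theorem q_tendsto {D : ℝ} {q : ℝ → ℝ} (q0 : ∀ x, 0 ≤ q x)
    (qD : ∀ x, q x ≤ D * Real.exp (-2 * |x|)) :
    Tendsto q atTop (𝓝 0) ∧ Tendsto q atBot (𝓝 0) := by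
  have h0 : Tendsto (fun y : ℝ => Real.exp (-2 * y)) atTop (𝓝 0) :=
    Real.tendsto_exp_atBot.comp (tendsto_id.const_mul_atTop_of_neg (by norm_num))
  have h1 : Tendsto (fun x : ℝ => D * Real.exp (-2 * |x|)) atTop (𝓝 0) := by
    have := (h0.comp tendsto_abs_atTop_atTop).const_mul D
    rwa [mul_zero] at this
  have h2 : Tendsto (fun x : ℝ => D * Real.exp (-2 * |x|)) atBot (𝓝 0) := by
    have := (h0.comp tendsto_abs_atBot_atTop).const_mul D
    rwa [mul_zero] at this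
  exact ⟨squeeze_zero q0 qD h1, squeeze_zero q0 qD h2⟩

/-- The core: distinct parameters. -/
theorem core (LA1 : S_LA1) (LA2 : S_LA2) (LA3 : S_LA3) (LB : S_LB) (LC : S_LC) {D : ℝ}
    {q : ℝ → ℝ} (hD : 0 ≤ D) (q0 : ∀ x, 0 ≤ q x)
    (qD : ∀ x, q x ≤ D * Real.exp (-2 * |x|)) (S : Finset ℝ) (U U' : ℝ → ℝ → ℝ)
    (h1 : ∀ ν x, HasDerivAt (U ν) (U' ν x) x)
    (h2 : ∀ ν x, HasDerivAt (U' ν) ((ν - q x) * U ν x) x)
    (hB : ∀ ν ∈ S, BSol D q ν (U ν) (U' ν)) (hne : ∀ ν ∈ S, ∃ x, U ν x ≠ 0) {M : ℕ}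
    (hM : 1 ≤ M) (hA : Alt (fun x => ∑ ν ∈ S, U ν x) univ M) :
    (M : ℝ) ≤ 100 * (1 + Real.sqrt D) := by
  have hSne : S.Nonempty := by
    rw [Finset.nonempty_iff_ne_empty]
    rintro rfl
    obtain ⟨t, -, -, ht⟩ := hA
    have := ht 0 hM
    simp at this
  set ν0 := S.min' hSne with hν0
  have hν0S : ν0 ∈ S := S.min'_mem hSne
  have hmin : ∀ ν ∈ S, ν0 ≤ ν := fun ν hν => S.min'_le ν hν
  have cU : ∀ ν, Continuous (U ν) := fun ν =>
    continuous_iff_continuousAt.2 fun x => (h1 ν x).continuousAt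
  have cU' : ∀ ν, Continuous (U' ν) := fun ν =>
    continuous_iff_continuousAt.2 fun x => (h2 ν x).continuousAt
  have hqD : ∀ x, q x ≤ D := by
    intro x
    refine (qD x).trans ?_
    have h3 : Real.exp (-2 * |x|) ≤ 1 := Real.exp_le_one_iff.2 (by
      have := abs_nonneg x
      linarith)
    calc D * Real.exp (-2 * |x|) ≤ D * 1 := mul_le_mul_of_nonneg_left h3 hD
      _ = D := mul_one D
  -- the parameter
  obtain ⟨a, ha1, ha2, hapos⟩ : ∃ a : ℝ, (∀ x, 0 < a - q x) ∧ (∀ ν ∈ S, 0 < a - ν) ∧ 0 < a := by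
    have h5 : 0 ≤ ∑ ν ∈ S, |ν| := Finset.sum_nonneg fun _ _ => abs_nonneg _
    refine ⟨D + 1 + ∑ ν ∈ S, |ν|, fun x => ?_, fun ν hν => ?_, by linarith⟩
    · have := hqD x
      linarith
    · have h3 : |ν| ≤ ∑ ν ∈ S, |ν| := Finset.single_le_sum (fun _ _ => abs_nonneg _) hν
      have := le_abs_self ν
      linarith
  have ha0 := ha2 ν0 hν0S
  set ρ : ℝ → ℝ := fun ν => (a - ν) / (a - ν0) with hρ
  have hρ0 : ∀ ν ∈ S, 0 ≤ ρ ν := fun ν hν => div_nonneg (ha2 ν hν).le ha0.le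
  have hρ1 : ∀ ν ∈ S.erase ν0, ρ ν < 1 := by
    intro ν hν
    rw [Finset.mem_erase] at hν
    rw [hρ]
    simp only
    rw [div_lt_one ha0]
    have := lt_of_le_of_ne (hmin ν hν.2) (Ne.symm hν.1)
    linarith
  have hρν0 : ρ ν0 = 1 := div_self ha0.ne'
  set v : ℕ → ℝ → ℝ := fun m x => ∑ ν ∈ S, ρ ν ^ m * U ν x with hv
  set v' : ℕ → ℝ → ℝ := fun m x => ∑ ν ∈ S, ρ ν ^ m * U' ν x with hv'
  set v'' : ℕ → ℝ → ℝ := fun m x => ∑ ν ∈ S, ρ ν ^ m * ((ν - q x) * U ν x) with hv''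
  have d1 : ∀ m x, HasDerivAt (v m) (v' m x) x := fun m x =>
    HasDerivAt.fun_sum fun ν _ => (h1 ν x).const_mul _
  have d2 : ∀ m x, HasDerivAt (v' m) (v'' m x) x := fun m x =>
    HasDerivAt.fun_sum fun ν _ => (h2 ν x).const_mul _
  have hL : ∀ m x, -v'' m x + (a - q x) * v m x = (a - ν0) * v (m + 1) x := by
    intro m x
    rw [hv, hv'']
    simp only
    rw [Finset.mul_sum, Finset.mul_sum, ← Finset.sum_neg_distrib, ← Finset.sum_add_distrib]
    refine Finset.sum_congr rfl fun ν _ => ?_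
    have e : (a - ν0) * ρ ν = a - ν := by
      rw [hρ]
      simp only
      field_simp
    rw [pow_succ]
    calc -(ρ ν ^ m * ((ν - q x) * U ν x)) + (a - q x) * (ρ ν ^ m * U ν x)
        = (a - ν) * (ρ ν ^ m * U ν x) := by ring
      _ = ((a - ν0) * ρ ν) * (ρ ν ^ m * U ν x) := by rw [e]
      _ = _ := by ring
  -- limits
  obtain ⟨hqt, hqb⟩ := q_tendsto q0 qD
  have hlim : ∀ F : Filter ℝ, (∀ ν ∈ S, ∃ c, Tendsto (U ν) F (𝓝 c)) →
      ∀ m, ∃ c, Tendsto (v m) F (𝓝 c) := by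
    intro F hF m
    have hF' : ∀ ν, ∃ c, ν ∈ S → Tendsto (U ν) F (𝓝 c) := by
      intro ν
      by_cases hν : ν ∈ S
      · obtain ⟨c, hc⟩ := hF ν hν
        exact ⟨c, fun _ => hc⟩
      · exact ⟨0, fun h => absurd h hν⟩
    choose c hc using hF'
    exact ⟨∑ ν ∈ S, ρ ν ^ m * c ν, tendsto_finsetSum S fun ν hν => (hc ν hν).const_mul _⟩
  have hlim2 : ∀ F : Filter ℝ, (∀ ν ∈ S, Tendsto (fun x => (ν - q x) * U ν x) F (𝓝 0)) →
      ∀ m, Tendsto (v'' m) F (𝓝 0) := by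
    intro F hF m
    have h3 : Tendsto (v'' m) F (𝓝 (∑ ν ∈ S, ρ ν ^ m * 0)) :=
      tendsto_finsetSum S fun ν hν => (hF ν hν).const_mul _
    simpa using h3
  have hLA : ∀ ν ∈ S, _ := fun ν hν => LA1 D q ν (U ν) (U' ν) (hB ν hν)
  have hiter : ∀ m, Alt (v m) univ M := by
    intro m
    induction m with
    | zero =>
      have hv0 : v 0 = fun x => ∑ ν ∈ S, U ν x := by
        funext x
        simp [hv]
      rw [hv0]
      exact hA
    | succ m ih =>
      obtain ⟨c₁, hc₁⟩ := hlim atTop (fun ν hν => (hLA ν hν).1) m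
      obtain ⟨c₂, hc₂⟩ := hlim atBot (fun ν hν => (hLA ν hν).2.1) m
      have h4 := LB (v m) (v' m) (v'' m) q a c₁ c₂ (d1 m) (d2 m) ha1 hapos hqt hqb hc₁ hc₂
        (hlim2 atTop (fun ν hν => (hLA ν hν).2.2.1) m)
        (hlim2 atBot (fun ν hν => (hLA ν hν).2.2.2) m) M ih
      simp only [hL] at h4
      exact alt_of_mul h4
  -- domination
  set K := Real.sqrt D + 3 with hK
  have hK0 : 0 < K := by
    have := Real.sqrt_nonneg D
    linarith
  have hdom : ∀ ν, ∃ R : ℝ, ν ∈ S.erase ν0 → ∀ x, K ≤ |x| → |U ν x| ≤ R * |U ν0 x| := by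
    intro ν
    by_cases hν : ν ∈ S.erase ν0
    · have hν' := Finset.mem_erase.1 hν
      obtain ⟨R, hR⟩ := LA3 D q ν0 ν (U ν0) (U' ν0) (U ν) (U' ν) (hB ν0 hν0S) (hB ν hν'.2)
        (hne ν0 hν0S) (lt_of_le_of_ne (hmin ν hν'.2) (Ne.symm hν'.1))
      exact ⟨R, fun _ => hR⟩
    · exact ⟨0, fun h => absurd h hν⟩
  choose R hR using hdom
  have hnz : ∀ x, K ≤ |x| → U ν0 x ≠ 0 :=
    LA2 D q ν0 (U ν0) (U' ν0) (hB ν0 hν0S) (hne ν0 hν0S)
  -- bounds on the compact interval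
  have hbd : ∀ f : ℝ → ℝ, Continuous f → ∃ B : ℝ, ∀ x, |x| ≤ K → |f x| ≤ B := by
    intro f hf
    obtain ⟨B, hB⟩ := (isCompact_Icc (a := -K) (b := K)).exists_bound_of_continuousOn
      hf.continuousOn
    exact ⟨B, fun x hx => hB x (abs_le.1 hx)⟩
  choose B hBB using fun ν => hbd (U ν) (cU ν)
  choose B' hBB' using fun ν => hbd (U' ν) (cU' ν)
  obtain ⟨κ, hκ, hκ2⟩ := LC D K q ν0 (U ν0) (U' ν0) hK0 (hB ν0 hν0S) (hne ν0 hν0S)
  have hsmall : ∀ w : ℝ → ℝ, Tendsto (fun m : ℕ => ∑ ν ∈ S.erase ν0, ρ ν ^ m * w ν) atTop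
      (𝓝 0) := by
    intro w
    have hpow : ∀ ν ∈ S.erase ν0, Tendsto (fun m : ℕ => ρ ν ^ m * w ν) atTop (𝓝 0) := by
      intro ν hν
      have := (tendsto_pow_atTop_nhds_zero_of_lt_one (hρ0 ν (Finset.mem_of_mem_erase hν))
        (hρ1 ν hν)).mul_const (w ν)
      rwa [zero_mul] at this
    have hsum := tendsto_finsetSum (S.erase ν0) hpow
    rwa [Finset.sum_const_zero] at hsum
  obtain ⟨m, hm1, hm2⟩ := (((hsmall fun ν => |B ν| + |B' ν|).eventually (gt_mem_nhds hκ)).and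
    ((hsmall fun ν => |R ν|).eventually (gt_mem_nhds one_pos))).exists
  have hρm : ∀ ν ∈ S.erase ν0, 0 ≤ ρ ν ^ m := fun ν hν =>
    pow_nonneg (hρ0 ν (Finset.mem_of_mem_erase hν)) m
  have hdiff : ∀ (F : ℝ → ℝ), (∑ ν ∈ S, ρ ν ^ m * F ν) - F ν0 =
      ∑ ν ∈ S.erase ν0, ρ ν ^ m * F ν := by
    intro F
    rw [← Finset.add_sum_erase S _ hν0S, hρν0, one_pow, one_mul, add_sub_cancel_left]
  have hgen : ∀ (F : ℝ → ℝ), (∀ ν ∈ S.erase ν0, |F ν| ≤ |B ν| + |B' ν|) →
      |(∑ ν ∈ S, ρ ν ^ m * F ν) - F ν0| < κ := by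
    intro F hF
    rw [hdiff]
    refine lt_of_le_of_lt (Finset.abs_sum_le_sum_abs _ _) (lt_of_le_of_lt ?_ hm1)
    refine Finset.sum_le_sum fun ν hν => ?_
    rw [abs_mul, abs_of_nonneg (hρm ν hν)]
    exact mul_le_mul_of_nonneg_left (hF ν hν) (hρm ν hν)
  have hclose : ∀ x, |x| ≤ K → |v m x - U ν0 x| < κ := fun x hx =>
    hgen (fun ν => U ν x) fun ν _ => by
      have := (hBB ν x hx).trans (le_abs_self _)
      linarith [abs_nonneg (B' ν)]
  have hclose' : ∀ x, |x| ≤ K → |v' m x - U' ν0 x| < κ := fun x hx =>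
    hgen (fun ν => U' ν x) fun ν _ => by
      have := (hBB' ν x hx).trans (le_abs_self _)
      linarith [abs_nonneg (B ν)]
  -- the sign for large `|x|`
  have hsign : ∀ x, K ≤ |x| → 0 < v m x * U ν0 x := by
    intro x hx
    have h3 : |v m x - U ν0 x| < |U ν0 x| := by
      have h4 : v m x - U ν0 x = ∑ ν ∈ S.erase ν0, ρ ν ^ m * U ν x := hdiff fun ν => U ν x
      have h5 : 0 < |U ν0 x| := abs_pos.2 (hnz x hx)
      rw [h4]
      calc |∑ ν ∈ S.erase ν0, ρ ν ^ m * U ν x|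
          ≤ ∑ ν ∈ S.erase ν0, |ρ ν ^ m * U ν x| := Finset.abs_sum_le_sum_abs _ _
        _ ≤ ∑ ν ∈ S.erase ν0, ρ ν ^ m * |R ν| * |U ν0 x| := by
            refine Finset.sum_le_sum fun ν hν => ?_
            rw [abs_mul, abs_of_nonneg (hρm ν hν), mul_assoc]
            refine mul_le_mul_of_nonneg_left ?_ (hρm ν hν)
            exact (hR ν hν x hx).trans (mul_le_mul_of_nonneg_right (le_abs_self _) h5.le)
        _ = (∑ ν ∈ S.erase ν0, ρ ν ^ m * |R ν|) * |U ν0 x| := by rw [Finset.sum_mul]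
        _ < 1 * |U ν0 x| := mul_lt_mul_of_pos_right hm2 h5
        _ = |U ν0 x| := one_mul _
    rcases lt_or_ge (U ν0 x) 0 with h | h
    · rw [abs_of_neg h] at h3
      have h4 := (abs_lt.1 h3).2
      exact mul_pos_of_neg_of_neg (by linarith) h
    · have h' : 0 < U ν0 x := lt_of_le_of_ne h (hnz x hx).symm
      rw [abs_of_pos h'] at h3
      have h4 := (abs_lt.1 h3).1
      exact mul_pos (by linarith) h'
  have hsame : ∀ x y, K ≤ |x| → K ≤ |y| → 0 < U ν0 x * U ν0 y → 0 < v m x * v m y := by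
    intro x y hx hy hxy
    have h3 := hsign x hx
    have h4 := hsign y hy
    have h5 : 0 < (v m x * v m y) * (U ν0 x * U ν0 y) := by
      have := mul_pos h3 h4
      calc (0 : ℝ) < v m x * U ν0 x * (v m y * U ν0 y) := this
        _ = _ := by ring
    exact (pos_iff_pos_of_mul_pos h5).2 hxy
  have hright : ∀ x y, K ≤ x → K ≤ y → 0 < v m x * v m y := by
    intro x y hx hy
    refine hsame x y (hx.trans (le_abs_self x)) (hy.trans (le_abs_self y)) ?_
    exact const_sign (cU ν0) (I := Ici K) ordConnected_Ici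
      (fun z hz => hnz z (le_trans hz (le_abs_self z))) x hx y hy
  have hleft : ∀ x y, x ≤ -K → y ≤ -K → 0 < v m x * v m y := by
    intro x y hx hy
    have e : ∀ z : ℝ, z ≤ -K → K ≤ |z| := fun z hz => by
      have := neg_le_abs z
      linarith
    refine hsame x y (e x hx) (e y hy) ?_
    exact const_sign (cU ν0) (I := Iic (-K)) ordConnected_Iic
      (fun z hz => hnz z (e z hz)) x hx y hy
  have hs0 := Real.sqrt_nonneg D
  rcases Nat.lt_or_ge M 2 with hM2 | hM2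
  · have : (M : ℝ) ≤ 1 := by
      have : M ≤ 1 := by omega
      exact_mod_cast this
    linarith
  -- the sign changes in the interval
  obtain ⟨t, t1, -, t3⟩ := hiter m
  have hin : ∀ i, 1 ≤ i → i < M → t i ∈ Icc (-K) K := by
    intro i hi1 hi2
    constructor
    · by_contra hcon
      push Not at hcon
      have h3 := t1 (i - 1) (by omega)
      have h4 := t3 (i - 1) (by omega)
      rw [Nat.sub_add_cancel hi1] at h3 h4
      have h5 := hleft (t (i - 1)) (t i) (by linarith) hcon.le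
      linarith
    · by_contra hcon
      push Not at hcon
      have h3 := t1 i hi2
      have h4 := t3 i hi2
      have h5 := hright (t i) (t (i + 1)) hcon.le (by linarith)
      linarith
  have hAlt : Alt (v m) (Icc (-K) K) (M - 2) := by
    refine ⟨fun i => t (i + 1), fun i hi => t1 (i + 1) (by omega), fun i hi => ?_,
      fun i hi => t3 (i + 1) (by omega)⟩
    exact hin (i + 1) (by omega) (by omega)
  have h3 := hκ2 (v m) (v' m) (d1 m) hclose hclose' (M - 2) hAlt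
  rw [Nat.cast_sub hM2] at h3
  push_cast at h3
  rw [hK] at h3
  linarith

theorem LD : S_LD := by
  classical
  intro LA1 LA2 LA3 LB LC n D q ν w w' hD qc q0 qD hν h1 h2 hb M hA
  rcases Nat.eq_zero_or_pos M with hM | hM
  · rw [hM, Nat.cast_zero]
    have := Real.sqrt_nonneg D
    linarith
  set U : ℝ → ℝ → ℝ := fun μ x => ∑ i ∈ Finset.univ.filter (fun i => ν i = μ), w i x with hU
  set U' : ℝ → ℝ → ℝ := fun μ x => ∑ i ∈ Finset.univ.filter (fun i => ν i = μ), w' i x with hU'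
  set S0 : Finset ℝ := Finset.univ.image ν with hS0
  set S : Finset ℝ := S0.filter (fun μ => ∃ x, U μ x ≠ 0) with hS
  have hsum : ∀ x, ∑ i, w i x = ∑ μ ∈ S, U μ x := by
    intro x
    have e1 : ∑ i, w i x = ∑ μ ∈ S0, U μ x := by
      rw [hU]
      simp only
      exact (Finset.sum_fiberwise_of_maps_to
        (fun i _ => Finset.mem_image_of_mem ν (Finset.mem_univ i)) _).symm
    rw [e1, hS, Finset.sum_filter]
    refine Finset.sum_congr rfl fun μ _ => ?_
    split_ifs with h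
    · rfl
    · push Not at h
      exact h x
  have d1 : ∀ μ x, HasDerivAt (U μ) (U' μ x) x := fun μ x =>
    HasDerivAt.fun_sum fun i _ => h1 i x
  have d2 : ∀ μ x, HasDerivAt (U' μ) ((μ - q x) * U μ x) x := by
    intro μ x
    have h3 : HasDerivAt (U' μ) (∑ i ∈ Finset.univ.filter (fun i => ν i = μ),
        (ν i - q x) * w i x) x := HasDerivAt.fun_sum fun i _ => h2 i x
    refine h3.congr_deriv ?_
    rw [hU]
    simp only
    rw [Finset.mul_sum]
    refine Finset.sum_congr rfl fun i hi => ?_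
    rw [(Finset.mem_filter.1 hi).2]
  have hbd : ∀ μ, ∃ B, ∀ x, |U μ x| ≤ B := by
    intro μ
    choose B hB using hb
    refine ⟨∑ i ∈ Finset.univ.filter (fun i => ν i = μ), B i, fun x => ?_⟩
    exact (Finset.abs_sum_le_sum_abs _ _).trans (Finset.sum_le_sum fun i _ => hB i x)
  refine core LA1 LA2 LA3 LB LC hD q0 qD S U U' d1 d2 (fun μ hμ => ?_) (fun μ hμ => ?_) hM ?_
  · obtain ⟨i, -, rfl⟩ := Finset.mem_image.1 (Finset.mem_filter.1 hμ).1
    exact ⟨hD, qc, q0, qD, hν i, d1 _, d2 _, hbd _⟩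
  · exact (Finset.mem_filter.1 hμ).2
  · have e : (fun x => ∑ i, w i x) = fun x => ∑ μ ∈ S, U μ x := funext hsum
    rw [← e]
    exact hA

end Pool.Agent.N457.SR
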